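import Mathlib

/-!
CYC (helper87): a finite p-group, p odd, without a subgroup of type (p, p) is cyclic.
-/

namespace Pool.Agent.FourGp.H87

universe u

/-- no `C_p × C_p`. -/
def NoPP (P : Type*) [Group P] (p : ℕ) : Prop :=
  ∀ x y : P, x ^ p = 1 → y ^ p = 1 → x * y = y * x →
    x ∈ Subgroup.zpowers y ∨ y ∈ Subgroup.zpowers x

theorem NoPP.sub {P : Type*} [Group P] {p : ℕ} (h : NoPP P p) (S : Subgroup P) : NoPP S p := by
  intro x y hx hy hxy
  have hx' : (x : P) ^ p = 1 := by rw [← Subgroup.coe_pow, hx]; rfl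
  have hy' : (y : P) ^ p = 1 := by rw [← Subgroup.coe_pow, hy]; rfl
  have hc : (x : P) * y = y * x := by rw [← Subgroup.coe_mul, hxy]; rfl
  rcases h x y hx' hy' hc with h1 | h1
  · left
    obtain ⟨k, hk⟩ := Subgroup.mem_zpowers_iff.mp h1
    exact Subgroup.mem_zpowers_iff.mpr ⟨k, Subtype.ext (by rw [Subgroup.coe_zpow]; exact hk)⟩
  · right
    obtain ⟨k, hk⟩ := Subgroup.mem_zpowers_iff.mp h1
    exact Subgroup.mem_zpowers_iff.mpr ⟨k, Subtype.ext (by rw [Subgroup.coe_zpow]; exact hk)⟩

/-- the power formula in class two. -/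
theorem cl2 {P : Type*} [Group P] {x y c : P} (hc : ∀ w, c * w = w * c) (h : y * x = c * (x * y))
    (n : ℕ) : (x * y) ^ n = x ^ n * y ^ n * c ^ (n * (n - 1) / 2) := by
  have hcn : ∀ (k : ℕ) (w : P), c ^ k * w = w * c ^ k := by
    intro k w
    have : Commute c w := hc w
    exact (this.pow_left k).eq
  have h1 : ∀ k : ℕ, y ^ k * x = c ^ k * (x * y ^ k) := by
    intro k
    induction k with
    | zero => simp
    | succ k ih =>
      calc y ^ (k + 1) * x = y ^ k * (y * x) := by rw [pow_succ]; group
        _ = y ^ k * (c * (x * y)) := by rw [h]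
        _ = (y ^ k * c) * x * y := by group
        _ = (c * y ^ k) * x * y := by rw [hc]
        _ = c * (y ^ k * x) * y := by group
        _ = c * (c ^ k * (x * y ^ k)) * y := by rw [ih]
        _ = c ^ (k + 1) * (x * y ^ (k + 1)) := by rw [pow_succ', pow_succ]; group
  induction n with
  | zero => simp
  | succ n ih =>
    have e : (n + 1) * (n + 1 - 1) / 2 = n * (n - 1) / 2 + n := by
      rw [← Finset.sum_range_id_mul_two, ← Finset.sum_range_id_mul_two]
      rw [Nat.mul_div_cancel _ (by norm_num), Nat.mul_div_cancel _ (by norm_num),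
        Finset.sum_range_succ]
    rw [pow_succ, ih, e]
    calc x ^ n * y ^ n * c ^ (n * (n - 1) / 2) * (x * y)
        = x ^ n * y ^ n * (c ^ (n * (n - 1) / 2) * (x * y)) := by group
      _ = x ^ n * y ^ n * ((x * y) * c ^ (n * (n - 1) / 2)) := by rw [hcn]
      _ = x ^ n * (y ^ n * x) * y * c ^ (n * (n - 1) / 2) := by group
      _ = x ^ n * (c ^ n * (x * y ^ n)) * y * c ^ (n * (n - 1) / 2) := by rw [h1]
      _ = x ^ n * (c ^ n * (x * y ^ n * y * c ^ (n * (n - 1) / 2))) := by group
      _ = x ^ n * ((x * y ^ n * y * c ^ (n * (n - 1) / 2)) * c ^ n) := by rw [hcn]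
      _ = x ^ (n + 1) * y ^ (n + 1) * (c ^ (n * (n - 1) / 2) * c ^ n) := by
          rw [pow_succ, pow_succ]; group
      _ = _ := by rw [← pow_add]

theorem coatom_index {P : Type*} [Group P] [Finite P] {p : ℕ} [Fact p.Prime] (hP : IsPGroup p P)
    {M : Subgroup P} (hM : IsCoatom M) : M.Normal ∧ M.index = p := by
  have hnil : Group.IsNilpotent P := hP.isNilpotent
  have hn : M.Normal :=
    (Group.isNilpotent_of_finite_tfae (G := P)).out 0 2 rfl rfl |>.mp hnil M hM
  refine ⟨hn, ?_⟩
  obtain ⟨N, hN⟩ := IsPGroup.iff_card.mp hP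
  obtain ⟨n, hn2⟩ := IsPGroup.iff_card.mp (hP.to_subgroup M)
  have hlt : Nat.card M < Nat.card P := by
    refine lt_of_le_of_ne (Subgroup.card_le_card_group M) ?_
    intro e
    exact hM.1 (Subgroup.eq_top_of_card_eq M e)
  have hnN : n < N := by
    rw [hN, hn2] at hlt
    exact (Nat.pow_lt_pow_iff_right (Fact.out : p.Prime).one_lt).mp hlt
  obtain ⟨K, hK, hMK⟩ := Sylow.exists_subgroup_card_pow_succ (p := p) (n := n) (G := P)
    (by rw [hN]; exact pow_dvd_pow p hnN) hn2
  have hKt : K = ⊤ := by
    apply hM.2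
    refine lt_of_le_of_ne hMK ?_
    intro e
    rw [← e, hn2] at hK
    have := Nat.pow_right_injective (Fact.out : p.Prime).two_le hK
    omega
  have hc : Nat.card P = p ^ (n + 1) := by
    rw [← hK, hKt, Subgroup.card_top]
  have := M.card_mul_index
  rw [hn2, hc, pow_succ] at this
  exact Nat.eq_of_mul_eq_mul_left (pow_pos (Fact.out : p.Prime).pos n) this

theorem cyc_aux {p : ℕ} [hpF : Fact p.Prime] (hp2 : p ≠ 2) : ∀ (n : ℕ) (P : Type u) [Group P]
    [Finite P], Nat.card P = n → IsPGroup p P → NoPP P p → IsCyclic P := by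
  intro n
  induction n using Nat.strong_induction_on with
  | _ n ih =>
    intro P _ _ hn hP hN
    have hp : p.Prime := hpF.out
    rcases subsingleton_or_nontrivial P with hs | hs
    · infer_instance
    by_contra hnc
    -- proper subgroups are cyclic
    have hsub : ∀ M : Subgroup P, M ≠ ⊤ → IsCyclic M := by
      intro M hM
      refine ih (Nat.card M) ?_ M rfl (hP.to_subgroup M) (hN.sub M)
      rw [← hn]
      refine lt_of_le_of_ne (Subgroup.card_le_card_group M) ?_
      intro e
      exact hM (Subgroup.eq_top_of_card_eq M e)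
    have hzp : ∀ x : P, Subgroup.zpowers x ≠ ⊤ := by
      intro x hx
      exact hnc ⟨x, fun y => by
        have : y ∈ (⊤ : Subgroup P) := Subgroup.mem_top y
        rwa [← hx] at this⟩
    have hcoat : ∀ x : P, ∃ M : Subgroup P, IsCoatom M ∧ x ∈ M := by
      intro x
      rcases eq_top_or_exists_le_coatom (Subgroup.zpowers x) with h1 | ⟨M, hM, hle⟩
      · exact absurd h1 (hzp x)
      · exact ⟨M, hM, hle (Subgroup.mem_zpowers x)⟩
    have hMab : ∀ M : Subgroup P, IsCoatom M → ∀ x ∈ M, ∀ y ∈ M, x * y = y * x := by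
      intro M hM x hx y hy
      have h1 := hsub M hM.1
      obtain ⟨g, hg⟩ := h1.exists_generator
      obtain ⟨i, hi⟩ := Subgroup.mem_zpowers_iff.mp (hg ⟨x, hx⟩)
      obtain ⟨j, hj⟩ := Subgroup.mem_zpowers_iff.mp (hg ⟨y, hy⟩)
      have e1 : x = (g : P) ^ i := by
        have := congrArg Subtype.val hi
        simpa using this.symm
      have e2 : y = (g : P) ^ j := by
        have := congrArg Subtype.val hj
        simpa using this.symm
      rw [e1, e2, ← zpow_add, ← zpow_add, add_comm]
    -- powers and commutators are in every coatom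
    have hpw : ∀ M : Subgroup P, IsCoatom M → ∀ x : P, x ^ p ∈ M := by
      intro M hM x
      obtain ⟨hn1, hi⟩ := coatom_index hP hM
      have h1 : ((x : P ⧸ M)) ^ p = 1 := by
        have : Nat.card (P ⧸ M) = p := by rw [← hi]; rfl
        rw [← this]; exact pow_card_eq_one'
      rw [← QuotientGroup.mk_pow] at h1
      exact (QuotientGroup.eq_one_iff _).mp h1
    have hcm : ∀ M : Subgroup P, IsCoatom M → ∀ x y : P, y * x * y⁻¹ * x⁻¹ ∈ M := by
      intro M hM x y
      obtain ⟨hn1, hi⟩ := coatom_index hP hM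
      have hcq : Nat.card (P ⧸ M) = p := by rw [← hi]; rfl
      have hcy : IsCyclic (P ⧸ M) := isCyclic_of_prime_card hcq
      have hab : ((y : P ⧸ M)) * (x : P ⧸ M) = (x : P ⧸ M) * (y : P ⧸ M) := by
        obtain ⟨g, hg⟩ := hcy.exists_generator
        obtain ⟨i, hi⟩ := Subgroup.mem_zpowers_iff.mp (hg (x : P ⧸ M))
        obtain ⟨j, hj⟩ := Subgroup.mem_zpowers_iff.mp (hg (y : P ⧸ M))
        rw [← hi, ← hj, ← zpow_add, ← zpow_add, add_comm]
      apply (QuotientGroup.eq_one_iff _).mp
      rw [QuotientGroup.mk_mul, QuotientGroup.mk_mul, QuotientGroup.mk_mul, QuotientGroup.mk_inv,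
        QuotientGroup.mk_inv, hab]
      group
    have hcen : ∀ w : P, (∀ M : Subgroup P, IsCoatom M → w ∈ M) → ∀ x, w * x = x * w := by
      intro w hw x
      obtain ⟨M, hM, hx⟩ := hcoat x
      exact hMab M hM w (hw M hM) x hx
    -- the power map is a homomorphism
    have hmul : ∀ x y : P, (x * y) ^ p = x ^ p * y ^ p := by
      intro x y
      set c := y * x * y⁻¹ * x⁻¹ with hcd
      have hc : ∀ w, c * w = w * c := hcen c fun M hM => hcm M hM x y
      have h1 : y * x = c * (x * y) := by rw [hcd]; group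
      rw [cl2 hc h1]
      have hcp : c ^ p = 1 := by
        -- y ^ p commutes with x
        have h2 : ∀ k : ℕ, y ^ k * x = c ^ k * (x * y ^ k) := by
          intro k
          induction k with
          | zero => simp
          | succ k ih =>
            calc y ^ (k + 1) * x = y ^ k * (y * x) := by rw [pow_succ]; group
              _ = y ^ k * (c * (x * y)) := by rw [h1]
              _ = (y ^ k * c) * x * y := by group
              _ = (c * y ^ k) * x * y := by rw [hc]
              _ = c * (y ^ k * x) * y := by group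
              _ = c * (c ^ k * (x * y ^ k)) * y := by rw [ih]
              _ = c ^ (k + 1) * (x * y ^ (k + 1)) := by rw [pow_succ', pow_succ]; group
        have h3 := h2 p
        have h4 : y ^ p * x = x * y ^ p := hcen _ (fun M hM => hpw M hM y) x
        rw [h4] at h3
        exact mul_eq_right.mp h3.symm
      have hdiv : p * (p - 1) / 2 = p * ((p - 1) / 2) := by
        apply Nat.mul_div_assoc
        obtain ⟨k, hk⟩ := hp.odd_of_ne_two hp2
        exact ⟨k, by omega⟩
      rw [hdiv, pow_mul, hcp, one_pow, mul_one]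
    let f : P →* P := MonoidHom.mk' (fun x => x ^ p) hmul
    have hf : ∀ x, f x = x ^ p := fun _ => rfl
    -- a central element of order p
    have hcnt : Nontrivial (Subgroup.center P) := hP.center_nontrivial
    have hpd : p ∣ Nat.card (Subgroup.center P) := by
      rcases (hP.to_subgroup (Subgroup.center P)).card_eq_or_dvd with h1 | h1
      · exfalso
        have := (Nat.card_eq_one_iff_unique.mp h1).1
        exact not_subsingleton _ this
      · exact h1
    obtain ⟨z0, hz0⟩ := exists_prime_orderOf_dvd_card' p hpd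
    set z : P := (z0 : P) with hz
    have hzo : orderOf z = p := by rw [hz, Subgroup.orderOf_coe, hz0]
    have hzc : ∀ w, z * w = w * z := fun w => (Subgroup.mem_center_iff.mp z0.2 w).symm
    have hzp1 : z ^ p = 1 := by rw [← hzo]; exact pow_orderOf_eq_one z
    have hker : f.ker = Subgroup.zpowers z := by
      apply le_antisymm
      · intro x hx
        have hx1 : x ^ p = 1 := by rw [← hf]; exact MonoidHom.mem_ker.mp hx
        rcases hN x z hx1 hzp1 (hzc x).symm with h1 | h1
        · exact h1
        · by_cases hx0 : x = 1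
          · rw [hx0]; exact Subgroup.one_mem _
          · have hxo : orderOf x = p := orderOf_eq_prime hx1 hx0
            have hle : Subgroup.zpowers z ≤ Subgroup.zpowers x :=
              (Subgroup.zpowers_le).mpr h1
            have : Subgroup.zpowers z = Subgroup.zpowers x := by
              apply Subgroup.eq_of_le_of_card_ge hle
              rw [Nat.card_zpowers, Nat.card_zpowers, hxo, hzo]
            rw [this]; exact Subgroup.mem_zpowers x
      · rw [Subgroup.zpowers_le]
        exact MonoidHom.mem_ker.mpr (by rw [hf]; exact hzp1)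
    have hkc : Nat.card f.ker = p := by rw [hker, Nat.card_zpowers, hzo]
    have hci : p * Nat.card f.range = Nat.card P := by
      have := f.ker.card_mul_index
      rwa [Subgroup.index_ker, hkc] at this
    have hrt : f.range ≠ ⊤ := by
      intro e
      rw [e, Subgroup.card_top] at hci
      have h1 : 0 < Nat.card P := Nat.card_pos
      have h2 := hp.two_le
      nlinarith
    obtain ⟨g, hg⟩ := (hsub _ hrt).exists_generator
    obtain ⟨x, hx⟩ := g.2
    have hr : f.range = Subgroup.zpowers (x ^ p) := by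
      apply le_antisymm
      · intro y hy
        obtain ⟨k, hk⟩ := Subgroup.mem_zpowers_iff.mp (hg ⟨y, hy⟩)
        refine Subgroup.mem_zpowers_iff.mpr ⟨k, ?_⟩
        have := congrArg Subtype.val hk
        rw [Subgroup.coe_zpow, ← hx] at this
        exact this
      · rw [Subgroup.zpowers_le]
        exact ⟨x, rfl⟩
    have hle : f.range ≤ Subgroup.zpowers x := by
      rw [hr, Subgroup.zpowers_le]
      exact Subgroup.pow_mem _ (Subgroup.mem_zpowers x) p
    obtain ⟨d, hd⟩ := Subgroup.card_dvd_of_le hle
    have hrpos : 0 < Nat.card f.range := Nat.card_pos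
    have hdp : d ∣ p := by
      obtain ⟨e, he⟩ := Subgroup.card_subgroup_dvd_card (Subgroup.zpowers x)
      rw [hd, ← hci] at he
      refine ⟨e, ?_⟩
      have : Nat.card f.range * p = Nat.card f.range * (d * e) := by
        rw [mul_comm _ p, he]; ring
      exact Nat.eq_of_mul_eq_mul_left hrpos this
    rcases (Nat.dvd_prime hp).mp hdp with h1 | h1
    · -- x in the range
      have heq : f.range = Subgroup.zpowers x := by
        apply Subgroup.eq_of_le_of_card_ge hle
        rw [hd, h1, mul_one]
      have hxr : x ∈ Subgroup.zpowers (x ^ p) := by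
        rw [← hr, heq]; exact Subgroup.mem_zpowers x
      have hx1 : x = 1 := by
        by_contra hx1
        obtain ⟨k, hk⟩ := Subgroup.mem_zpowers_iff.mp hxr
        have h2 : x ^ ((p : ℤ) * k - 1) = 1 := by
          rw [zpow_sub, zpow_mul, zpow_natCast, hk, zpow_one, mul_inv_cancel]
        have h3 : (orderOf x : ℤ) ∣ (p : ℤ) * k - 1 := orderOf_dvd_iff_zpow_eq_one.mpr h2
        have h4 : (p : ℤ) ∣ orderOf x := by exact_mod_cast hP.dvd_orderOf hx1
        have h5 : (p : ℤ) ∣ (p : ℤ) * k - 1 := h4.trans h3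
        have h6 : (p : ℤ) ∣ 1 := by
          have := dvd_sub (dvd_mul_right (p : ℤ) k) h5
          simpa using this
        have h7 : p ∣ 1 := by exact_mod_cast h6
        exact hp.one_lt.ne' (Nat.dvd_one.mp h7)
      have hc1 : Nat.card f.range = 1 := by
        rw [heq, hx1, Nat.card_zpowers, orderOf_one]
      rw [hc1, mul_one] at hci
      exact hnc (isCyclic_of_prime_card hci.symm)
    · apply hzp x
      apply Subgroup.eq_top_of_card_eq
      rw [hd, h1, ← hci, mul_comm]

/-- CYC: a finite p-group, p odd, without a subgroup of type (p, p) is cyclic. -/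
theorem cyc {P : Type*} [Group P] [Finite P] {p : ℕ} (hp : p.Prime) (hp2 : p ≠ 2)
    (hP : IsPGroup p P)
    (h : ∀ x y : P, x ^ p = 1 → y ^ p = 1 → x * y = y * x →
      x ∈ Subgroup.zpowers y ∨ y ∈ Subgroup.zpowers x) : IsCyclic P := by
  haveI : Fact p.Prime := ⟨hp⟩
  exact cyc_aux hp2 _ P rfl hP h

/-- A finite group of odd order without subgroups of type (p, p) is a Z-group. -/
theorem zg {G : Type*} [Group G] [Finite G] (hodd : Odd (Nat.card G))
    (h : ∀ p : ℕ, p.Prime → ∀ x y : G, x ^ p = 1 → y ^ p = 1 → x * y = y * x →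
      x ∈ Subgroup.zpowers y ∨ y ∈ Subgroup.zpowers x) : IsZGroup G := by
  refine ⟨fun p hp P => ?_⟩
  haveI : Fact p.Prime := ⟨hp⟩
  by_cases hp2 : p = 2
  · -- the Sylow 2-subgroup is trivial
    have h1 : Odd (Nat.card (P : Subgroup G)) := by
      obtain ⟨k, hk⟩ := Subgroup.card_subgroup_dvd_card (P : Subgroup G)
      rw [hk] at hodd
      exact Nat.Odd.of_mul_left hodd
    obtain ⟨n, hn⟩ := IsPGroup.iff_card.mp P.isPGroup'
    rw [hn, hp2] at h1
    have hn0 : n = 0 := by
      by_contra hn0
      have : Even (2 ^ n) := (Nat.even_pow.mpr ⟨even_two, hn0⟩)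
      exact (Nat.not_even_iff_odd.mpr h1) this
    rw [hn0, pow_zero] at hn
    have := (Nat.card_eq_one_iff_unique.mp hn).1
    infer_instance
  · exact cyc hp hp2 P.isPGroup' (NoPP.sub (fun x y => h p hp x y) (P : Subgroup G))

end Pool.Agent.FourGp.H87
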